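import Pool.Agent.W890.SF.Stm

/-! # SAM: stability for a finite uniform law -/

set_option autoImplicit false

namespace Pool.Agent.W32.SAM
open Finset
open Pool.Agent.W890.SF

namespace Aux

lemma marg {r : ℕ} {P : Type} [Fintype P] (π F : P → ℝ) (hs : ∑ p, π p = 1) (i0 : Fin r) :
    ∑ p : Fin r → P, (∏ i, π (p i)) * F (p i0) = ∑ p, π p * F p := by
  classical
  have h1 : (∏ i : Fin r, ∑ j : P, π j * (if i = i0 then F j else 1)) =
      ∑ p : Fin r → P, ∏ i, (π (p i) * (if i = i0 then F (p i) else 1)) := by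
    rw [Finset.prod_univ_sum]
    simp only [Fintype.piFinset_univ]
  have h2 : ∀ p : Fin r → P, ∏ i, (π (p i) * (if i = i0 then F (p i) else 1)) =
      (∏ i, π (p i)) * F (p i0) := by
    intro p
    rw [Finset.prod_mul_distrib]
    congr 1
    rw [Finset.prod_ite_eq' Finset.univ i0 (fun i => F (p i))]
    simp
  have h3 : ∀ i : Fin r, ∑ j : P, π j * (if i = i0 then F j else 1) =
      if i = i0 then ∑ j, π j * F j else 1 := by
    intro i
    by_cases h : i = i0
    · simp [h]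
    · simp [h, hs]
  rw [Finset.sum_congr rfl (fun p _ => (h2 p).symm), ← h1, Finset.prod_congr rfl (fun i _ => h3 i)]
  rw [Finset.prod_ite_eq' Finset.univ i0 (fun _ => ∑ j, π j * F j)]
  simp

lemma tot {r : ℕ} {P : Type} [Fintype P] (π : P → ℝ) (hs : ∑ p, π p = 1) :
    ∑ p : Fin r → P, (∏ i, π (p i)) = 1 := by
  classical
  have h1 : (∏ _i : Fin r, ∑ j : P, π j) = ∑ p : Fin r → P, ∏ i, π (p i) := by
    rw [Finset.prod_univ_sum]
    simp only [Fintype.piFinset_univ]
  rw [← h1, hs]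
  simp

end Aux

theorem sas (h1 : S_T2A) (h2 : S_T2B) (h3 : S_MIX1) (h4 : S_MIX2) : S_SAS := by
  intro r hr x0 γ hx0 hγ
  obtain ⟨g, hg⟩ : ∃ g : ℝ, g = min γ (min (x0 / 2) (1 / 4)) := ⟨_, rfl⟩
  have hg0 : 0 < g := by rw [hg]; exact lt_min hγ (lt_min (by linarith) (by norm_num))
  have hgγ : g ≤ γ := by rw [hg]; exact min_le_left _ _
  have hgx : g ≤ x0 / 2 := by rw [hg]; exact le_trans (min_le_right _ _) (min_le_left _ _)
  have hg4 : g ≤ 1 / 4 := by rw [hg]; exact le_trans (min_le_right _ _) (min_le_right _ _)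
  obtain ⟨e2, he2, H2⟩ := h2 r hr x0 g hx0 hg0
  refine ⟨min (x0 / 2) (g * e2 / 2), lt_min (by linarith) (by positivity), ?_⟩
  intro x hxx hx V _ _ y hy hsum hcount
  have hr2 : (2 : ℝ) ≤ (r : ℝ) := by exact_mod_cast hr
  have hxpos : 0 < x := lt_of_lt_of_le hx0 hxx
  have hx59 : 59 * x ≤ 20 := by nlinarith
  have hrx : (r : ℝ) * x < 1 := by nlinarith
  have hN : (0 : ℝ) < (Fintype.card V : ℝ) := by exact_mod_cast Fintype.card_pos
  have hNr : (0 : ℝ) < (Fintype.card V : ℝ) ^ r := pow_pos hN r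
  have hη1 : min (x0 / 2) (g * e2 / 2) ≤ x0 / 2 := min_le_left _ _
  have hη2 : min (x0 / 2) (g * e2 / 2) ≤ g * e2 / 2 := min_le_right _ _
  by_cases hc : ∃ v, y v ≠ x
  · obtain ⟨P, iP, π, a, b, q, hπ, hπs, hab, hφ, hlast⟩ := h4 V y x hy hsum hc
    have hm := h3 V P y π a b q hφ r
    rw [hm] at hcount
    have hle : ∑ p : Fin r → P, (∏ i, π (p i)) *
        PP (fun i => a (p i)) (fun i => b (p i)) (fun i => q (p i)) ≤
        (1 - x) ^ r + min (x0 / 2) (g * e2 / 2) := by
      have : (Fintype.card V : ℝ) ^ r * ∑ p : Fin r → P, (∏ i, π (p i)) *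
        PP (fun i => a (p i)) (fun i => b (p i)) (fun i => q (p i)) ≤
        (Fintype.card V : ℝ) ^ r * ((1 - x) ^ r + min (x0 / 2) (g * e2 / 2)) := by
        linarith
      exact le_of_mul_le_mul_left this hNr
    have hTP : ∀ p : Fin r → P, TP r x (fun i => a (p i)) (fun i => b (p i)) (fun i => q (p i)) := by
      intro p
      exact ⟨fun i => (hab (p i)).1, fun i => (hab (p i)).2.1, fun i => (hab (p i)).2.2.1,
        fun i => (hab (p i)).2.2.2.1, fun i => (hab (p i)).2.2.2.2⟩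
    have hPi0 : ∀ p : Fin r → P, 0 ≤ ∏ i, π (p i) := fun p =>
      Finset.prod_nonneg fun i _ => (hπ (p i)).le
    have hi0 : 0 < r := by omega
    have hbad : ∀ p : Fin r → P, (∏ i, π (p i)) *
        (if a (p ⟨0, hi0⟩) ≤ g ∧ 1 - g ≤ a (p ⟨0, hi0⟩) + b (p ⟨0, hi0⟩) then 0 else 1) * e2 ≤
        (∏ i, π (p i)) * PP (fun i => a (p i)) (fun i => b (p i)) (fun i => q (p i)) -
        (∏ i, π (p i)) * (1 - x) ^ r := by
      intro p
      rw [← mul_sub, mul_assoc]
      refine mul_le_mul_of_nonneg_left ?_ (hPi0 p)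
      have hlow := h1 r hr x hxpos hx _ _ _ (hTP p)
      by_cases hb : a (p ⟨0, hi0⟩) ≤ g ∧ 1 - g ≤ a (p ⟨0, hi0⟩) + b (p ⟨0, hi0⟩)
      · rw [if_pos hb]
        linarith
      · rw [if_neg hb]
        by_contra hcon
        push Not at hcon
        exact hb (H2 x hxx hx _ _ _ (hTP p) (by linarith) ⟨0, hi0⟩)
    have hS := Finset.sum_le_sum (s := (Finset.univ : Finset (Fin r → P))) (fun p _ => hbad p)
    rw [← Finset.sum_mul, Finset.sum_sub_distrib, ← Finset.sum_mul, Aux.tot π hπs,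
      Aux.marg π (fun j => if a j ≤ g ∧ 1 - g ≤ a j + b j then 0 else 1) hπs ⟨0, hi0⟩] at hS
    have heq : ∑ p, π p * (if a p ≤ g ∧ 1 - g ≤ a p + b p then 0 else 1) =
        ∑ p, (if a p ≤ g ∧ 1 - g ≤ a p + b p then 0 else π p) := by
      refine Finset.sum_congr rfl fun p _ => ?_
      split_ifs <;> simp
    rw [heq] at hS
    have hA : (∑ p, (if a p ≤ g ∧ 1 - g ≤ a p + b p then 0 else π p)) ≤ g / 2 := by
      have h5 : (∑ p, (if a p ≤ g ∧ 1 - g ≤ a p + b p then 0 else π p)) * e2 ≤ g / 2 * e2 := by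
        linarith
      exact le_of_mul_le_mul_right h5 he2
    have hL := hlast g (by linarith) (by linarith)
    have hsub : ((({v : V | γ < y v ∧ y v < 1 - γ} : Set V).ncard : ℕ) : ℝ) ≤
        ((({v : V | g < y v ∧ y v < 1 - g} : Set V).ncard : ℕ) : ℝ) := by
      have : ({v : V | γ < y v ∧ y v < 1 - γ} : Set V).ncard ≤
        ({v : V | g < y v ∧ y v < 1 - g} : Set V).ncard := by
        refine Set.ncard_le_ncard ?_ (Set.toFinite _)
        rintro v ⟨hv1, hv2⟩
        exact ⟨by linarith, by linarith⟩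
      exact_mod_cast this
    refine le_trans hsub (le_trans hL ?_)
    calc 2 * (Fintype.card V : ℝ) * ∑ p, (if a p ≤ g ∧ 1 - g ≤ a p + b p then 0 else π p)
        ≤ 2 * (Fintype.card V : ℝ) * (g / 2) := mul_le_mul_of_nonneg_left hA (by positivity)
      _ = g * (Fintype.card V : ℝ) := by ring
      _ ≤ γ * (Fintype.card V : ℝ) := mul_le_mul_of_nonneg_right hgγ hN.le
  · exfalso
    push Not at hc
    have huniv : {f : Fin r → V | ∑ i, y (f i) < 1} = Set.univ := by
      ext f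
      simp only [Set.mem_setOf_eq, Set.mem_univ, iff_true]
      rw [Finset.sum_congr rfl (fun i _ => hc (f i))]
      simpa using hrx
    rw [huniv, Set.ncard_univ, Nat.card_eq_fintype_card, Fintype.card_fun, Fintype.card_fin] at hcount
    push_cast at hcount
    have h6 : (1 : ℝ) ≤ (1 - x) ^ r + min (x0 / 2) (g * e2 / 2) := by
      by_contra hlt
      push Not at hlt
      have : ((1 - x) ^ r + min (x0 / 2) (g * e2 / 2)) * (Fintype.card V : ℝ) ^ r <
        1 * (Fintype.card V : ℝ) ^ r := mul_lt_mul_of_pos_right hlt hNr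
      linarith
    have h7 : (1 - x) ^ r ≤ (1 - x) ^ 1 :=
      pow_le_pow_of_le_one (by linarith) (by linarith) (by omega)
    rw [pow_one] at h7
    linarith

end Pool.Agent.W32.SAM
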